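import Pool.Agent.Q125.IN.Ten

/-!
# The number of positive eigenvalues is not bounded by a polynomial of degree two in the number of
negative eigenvalues

The graph: the vertices are the words of length ten over an alphabet with `m` letters; whether two
words are adjacent depends on the set `x` of the positions at which they agree: they are adjacent if
`#{s ∈ P10 : s ⊆ x} = #{s ∈ N10 : s ⊆ x} + 1`. These numbers differ by `0` or `1` for all `x`, the sets
in `N10` have at most four elements, and the full set is in `P10`. So on the functions with vanishing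
marginals on the sets in `N10`, a space of codimension at most `44 m ^ 4`, the quadratic form of the
adjacency matrix is at least the sum of squares.
-/

set_option autoImplicit false

namespace Pool.Agent.Results.MP_f59665_co.FiveHalves

open Pool.Agent.Q125.IN Filter Topology

/-- The graph on the words of length ten over an alphabet with `m` letters. -/
def wordGraph (m : ℕ) : SimpleGraph (Fin 10 → Fin m) := graph pattern10 m

theorem main (m : ℕ) (hm : 1 ≤ m) : nMinus (wordGraph m) ≤ 44 * m ^ 4 ∧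
    m ^ 10 ≤ nPlus (wordGraph m) + 44 * m ^ 4 :=
  inertia pattern10 m 4 hm card10

theorem power (B α : ℝ) (hα : α < 5 / 2) : ∃ (V : Type) (_ : Fintype V) (G : SimpleGraph V),
    B * (1 + nMinus G : ℝ) ^ α < nPlus G := by
  -- we may assume that `B` and `α` are positive
  set β : ℝ := max α 1 with hβ
  have hβ1 : 1 ≤ β := le_max_right _ _
  have hβ2 : β < 5 / 2 := max_lt hα (by norm_num)
  set C : ℝ := |B| * 45 ^ β with hC
  have hC0 : 0 ≤ C := by positivity
  -- the exponents
  have h1 : Tendsto (fun m : ℕ => (m : ℝ) ^ (10 - 4 * β)) atTop atTop :=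
    (tendsto_rpow_atTop (by linarith)).comp tendsto_natCast_atTop_atTop
  obtain ⟨m, hm1, hm2⟩ := ((h1.eventually_gt_atTop (C + 44)).and (eventually_ge_atTop 1)).exists
  refine ⟨Fin 10 → Fin m, inferInstance, wordGraph m, ?_⟩
  obtain ⟨h2, h3⟩ := main m hm2
  have hm0 : (1 : ℝ) ≤ m := by exact_mod_cast hm2
  have hm0' : (0 : ℝ) < m := by linarith
  have h2' : (nMinus (wordGraph m) : ℝ) ≤ 44 * (m : ℝ) ^ 4 := by exact_mod_cast h2
  have h3' : (m : ℝ) ^ 10 ≤ nPlus (wordGraph m) + 44 * (m : ℝ) ^ 4 := by exact_mod_cast h3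
  have hn0 : (0 : ℝ) ≤ nMinus (wordGraph m) := Nat.cast_nonneg _
  have hm4 : (1 : ℝ) ≤ (m : ℝ) ^ 4 := one_le_pow₀ hm0
  -- the left side
  have h4 : B * (1 + nMinus (wordGraph m) : ℝ) ^ α ≤ C * ((m : ℝ) ^ (4 * β)) := by
    calc B * (1 + nMinus (wordGraph m) : ℝ) ^ α
        ≤ |B| * (1 + nMinus (wordGraph m) : ℝ) ^ α :=
          mul_le_mul_of_nonneg_right (le_abs_self B) (Real.rpow_nonneg (by linarith) _)
      _ ≤ |B| * (1 + nMinus (wordGraph m) : ℝ) ^ β :=
          mul_le_mul_of_nonneg_left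
            (Real.rpow_le_rpow_of_exponent_le (by linarith) (le_max_left _ _)) (abs_nonneg B)
      _ ≤ |B| * (45 * (m : ℝ) ^ 4) ^ β :=
          mul_le_mul_of_nonneg_left
            (Real.rpow_le_rpow (by linarith) (by linarith) (by linarith)) (abs_nonneg B)
      _ = C * ((m : ℝ) ^ (4 * β)) := by
          rw [Real.mul_rpow (by norm_num) (by positivity), Real.rpow_mul hm0'.le, hC,
            ← Real.rpow_natCast, mul_assoc]
          norm_num
  have h5 : (m : ℝ) ^ (10 : ℕ) = (m : ℝ) ^ (10 - 4 * β) * (m : ℝ) ^ (4 * β) := by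
    rw [← Real.rpow_add hm0', ← Real.rpow_natCast]
    norm_num
  have h6 : (m : ℝ) ^ (4 : ℕ) ≤ (m : ℝ) ^ (4 * β) := by
    rw [← Real.rpow_natCast]
    exact Real.rpow_le_rpow_of_exponent_le hm0 (by push_cast; linarith)
  have h7 : (0 : ℝ) < (m : ℝ) ^ (4 * β) := Real.rpow_pos_of_pos hm0' _
  have h8 : (C + 44) * (m : ℝ) ^ (4 * β) < (m : ℝ) ^ (10 : ℕ) := by
    rw [h5]
    exact mul_lt_mul_of_pos_right hm1 h7
  have h9 : 44 * (m : ℝ) ^ 4 ≤ 44 * (m : ℝ) ^ (4 * β) := by linarith
  nlinarith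

theorem poly_le (f : Polynomial ℝ) (hf : f.natDegree ≤ 2) (x : ℝ) (hx : 0 ≤ x) :
    f.eval x ≤ (∑ i ∈ Finset.range 3, |f.coeff i|) * (1 + x) ^ (2 : ℝ) := by
  rw [Polynomial.eval_eq_sum_range' (lt_of_le_of_lt hf (by norm_num : 2 < 3)), Finset.sum_mul]
  refine Finset.sum_le_sum fun i hi => ?_
  have h1 : x ^ i ≤ (1 + x) ^ (2 : ℝ) := by
    rw [show (2 : ℝ) = ((2 : ℕ) : ℝ) by norm_num, Real.rpow_natCast]
    have hi' : i ≤ 2 := by
      rw [Finset.mem_range] at hi
      omega
    calc x ^ i ≤ (1 + x) ^ i := pow_le_pow_left₀ hx (by linarith) i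
      _ ≤ (1 + x) ^ 2 := pow_le_pow_right₀ (by linarith) hi'
  calc f.coeff i * x ^ i ≤ |f.coeff i| * x ^ i :=
        mul_le_mul_of_nonneg_right (le_abs_self _) (pow_nonneg hx i)
    _ ≤ |f.coeff i| * (1 + x) ^ (2 : ℝ) := mul_le_mul_of_nonneg_left h1 (abs_nonneg _)

/-- **Many positive and few negative eigenvalues.** (1) The graph on the `m ^ 10` words has at most
`44 m ^ 4` negative eigenvalues and at least `m ^ 10 - 44 m ^ 4` positive eigenvalues. (2) For all
real `B` and all `α < 5 / 2` there is a graph `G` with `n⁺(G) > B (1 + n⁻(G)) ^ α`. (3) For every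
polynomial `f` of degree at most two there is a graph `G` with `n⁺(G) > f(n⁻(G))`. -/
theorem result : (∀ m : ℕ, 1 ≤ m → nMinus (wordGraph m) ≤ 44 * m ^ 4 ∧
      m ^ 10 ≤ nPlus (wordGraph m) + 44 * m ^ 4) ∧
    (∀ B α : ℝ, α < 5 / 2 → ∃ (V : Type) (_ : Fintype V) (G : SimpleGraph V),
      B * (1 + nMinus G : ℝ) ^ α < nPlus G) ∧
    ∀ f : Polynomial ℝ, f.natDegree ≤ 2 → ∃ (V : Type) (_ : Fintype V) (G : SimpleGraph V),
      f.eval (nMinus G : ℝ) < nPlus G := by
  refine ⟨main, power, fun f hf => ?_⟩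
  obtain ⟨V, hV, G, hG⟩ := power (∑ i ∈ Finset.range 3, |f.coeff i|) 2 (by norm_num)
  exact ⟨V, hV, G, (poly_le f hf _ (Nat.cast_nonneg _)).trans_lt hG⟩

end Pool.Agent.Results.MP_f59665_co.FiveHalves
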